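import Mathlib

/-!
# Derivations of a field of characteristic zero

`K` is a field extension of a field `k` of characteristic zero.

* `Pool.Agent.DRV.exists_extension`: a derivation of a ring `S` with values in `K` extends to `K`
  when `K` is formally etale over `S`;
* `Pool.Agent.DRV.exists_derivation`: for `x` transcendental over `k` there is a `k`-derivation of
  `K` with value `1` at `x`;
* `Pool.Agent.DRV.exists_derivation_of_set`: for `x` transcendental over `ℚ(T)` there is a
  `ℚ`-derivation of `K` which vanishes on `T` and has the value `1` at `x`;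
* `Pool.Agent.DRV.eq_zero_of_isAlgebraic`: a derivation vanishes at algebraic elements.
-/

namespace Pool.Agent.DRV

open KaehlerDifferential TensorProduct

/-- Extension of derivations to a formally etale algebra. -/
theorem exists_extension {k S K : Type*} [CommRing k] [CommRing S] [CommRing K] [Algebra k S]
    [Algebra k K] [Algebra S K] [IsScalarTower k S K] [Algebra.FormallyEtale S K]
    (d : Derivation k S K) :
    ∃ δ : Derivation k K K, ∀ s : S, δ (algebraMap S K s) = d s := by
  let e := tensorKaehlerEquivOfFormallyEtale k S K
  let φ : Ω[S⁄k] →ₗ[S] K := d.liftKaehlerDifferential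
  let ψ : K ⊗[S] Ω[S⁄k] →ₗ[K] K := LinearMap.liftBaseChange K φ
  refine ⟨(ψ ∘ₗ e.symm.toLinearMap).compDer (KaehlerDifferential.D k K), fun s => ?_⟩
  have h1 : e.symm (D k K (algebraMap S K s)) = 1 ⊗ₜ D k S s :=
    tensorKaehlerEquivOfFormallyEtale_symm_D_algebraMap k S K s
  have h2 : ((ψ ∘ₗ e.symm.toLinearMap).compDer (KaehlerDifferential.D k K))
      (algebraMap S K s) = ψ (e.symm (D k K (algebraMap S K s))) := rfl
  rw [h2, h1]
  simp only [ψ, φ, LinearMap.liftBaseChange_tmul, one_smul,
    Derivation.liftKaehlerDifferential_comp_D]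

/-- A field of characteristic zero is formally etale over the polynomial ring generated by a
transcendence basis. -/
theorem formallyEtale_of_isTranscendenceBasis {k K ι : Type*} [Field k] [CharZero k] [Field K]
    [Algebra k K] {b : ι → K} (hb : IsTranscendenceBasis k b) :
    Algebra.FormallyEtale (Algebra.adjoin k (Set.range b)) K := by
  have h1 : Algebra.IsAlgebraic (IntermediateField.adjoin k (Set.range b)) K :=
    hb.isAlgebraic_field
  have h2 : Algebra.FormallyEtale (IntermediateField.adjoin k (Set.range b)) K :=
    Algebra.FormallyEtale.of_isSeparable _ _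
  open IntermediateField.algebraAdjoinAdjoin in
  have h3 : Algebra.FormallyEtale (Algebra.adjoin k (Set.range b))
      (IntermediateField.adjoin k (Set.range b)) :=
    Algebra.FormallyEtale.of_isLocalization (nonZeroDivisors _)
  open IntermediateField.algebraAdjoinAdjoin in
  exact Algebra.FormallyEtale.comp _ (IntermediateField.adjoin k (Set.range b)) _

/-- Derivations with prescribed values at a transcendence basis. -/
theorem exists_derivation_of_basis {k K ι : Type*} [Field k] [CharZero k] [Field K]
    [Algebra k K] {b : ι → K} (hb : IsTranscendenceBasis k b) (f : ι → K) :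
    ∃ δ : Derivation k K K, ∀ i, δ (b i) = f i := by
  have hE := formallyEtale_of_isTranscendenceBasis hb
  let e := hb.1.aevalEquiv
  -- the module structure of `K` over the polynomial ring
  let A := MvPolynomial ι k
  let _ : Module (MvPolynomial ι k) K := Module.compHom K (MvPolynomial.aeval b).toRingHom
  have _ : IsScalarTower k (MvPolynomial ι k) K := by
    refine ⟨fun c p z => ?_⟩
    change (MvPolynomial.aeval b (c • p)) * z = c • ((MvPolynomial.aeval b p) * z)
    rw [map_smul, smul_mul_assoc]
  let d0 : Derivation k (MvPolynomial ι k) K := MvPolynomial.mkDerivation k f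
  let d : Derivation k (Algebra.adjoin k (Set.range b)) K :=
    { toLinearMap := d0.toLinearMap ∘ₗ e.symm.toLinearMap
      map_one_eq_zero' := by
        change d0 (e.symm 1) = 0
        rw [map_one, Derivation.map_one_eq_zero]
      leibniz' := by
        intro s t
        change d0 (e.symm (s * t)) = s • d0 (e.symm t) + t • d0 (e.symm s)
        rw [map_mul, Derivation.leibniz]
        have hs : ∀ (u : Algebra.adjoin k (Set.range b)) (z : K), (e.symm u) • z = u • z := by
          intro u z
          change (MvPolynomial.aeval b (e.symm u)) * z = (u : K) * z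
          have h4 : MvPolynomial.aeval b (e.symm u) = (e (e.symm u) : K) :=
            (hb.1.algebraMap_aevalEquiv (e.symm u)).symm
          rw [h4, e.apply_symm_apply]
        rw [hs, hs] }
  obtain ⟨δ, hδ⟩ := exists_extension (k := k) (K := K) d
  refine ⟨δ, fun i => ?_⟩
  have hi : b i = algebraMap (Algebra.adjoin k (Set.range b)) K
      ⟨b i, Algebra.subset_adjoin ⟨i, rfl⟩⟩ := rfl
  rw [hi, hδ]
  change d0 (e.symm ⟨b i, Algebra.subset_adjoin ⟨i, rfl⟩⟩) = f i
  have h5 : e.symm ⟨b i, Algebra.subset_adjoin ⟨i, rfl⟩⟩ = MvPolynomial.X i := by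
    rw [AlgEquiv.symm_apply_eq]
    ext
    simp [e]
  rw [h5]
  exact MvPolynomial.mkDerivation_X k f i

/-- For `x` transcendental over `k` there is a `k`-derivation of `K` with value `1` at `x`. -/
theorem exists_derivation {k K : Type*} [Field k] [CharZero k] [Field K] [Algebra k K] {x : K}
    (hx : Transcendental k x) : ∃ δ : Derivation k K K, δ x = 1 := by
  have h1 : AlgebraicIndepOn k id ({x} : Set K) := by
    have := (algebraicIndependent_singleton_iff (R := k) (A := K) (ι := ({x} : Set K))
      (x := fun i => (i : K)) ⟨x, rfl⟩).mpr hx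
    exact this
  obtain ⟨t, ht, hb⟩ := exists_isTranscendenceBasis_superset h1
  obtain ⟨δ, hδ⟩ := exists_derivation_of_basis hb (fun _ => 1)
  exact ⟨δ, hδ ⟨x, ht rfl⟩⟩

/-- A derivation vanishes at algebraic elements. -/
theorem eq_zero_of_isAlgebraic {k K : Type*} [Field k] [CharZero k] [Field K] [Algebra k K]
    (δ : Derivation k K K) {x : K} (hx : IsAlgebraic k x) : δ x = 0 := by
  have hi : IsIntegral k x := hx.isIntegral
  have h1 : Polynomial.aeval x (minpoly k x) = 0 := minpoly.aeval k x
  have h2 : δ (Polynomial.aeval x (minpoly k x)) =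
      Polynomial.aeval x (Polynomial.derivative (minpoly k x)) • δ x := by
    induction (minpoly k x) using Polynomial.induction_on' with
    | add p q hp hq => simp only [map_add, hp, hq, add_smul]
    | monomial n a =>
      simp only [Polynomial.aeval_monomial, Polynomial.derivative_monomial, smul_eq_mul,
        Derivation.leibniz, Derivation.map_algebraMap, mul_zero, add_zero, Derivation.leibniz_pow,
        map_mul, map_natCast, nsmul_eq_mul]
      ring
  rw [h1, map_zero] at h2
  have h3 : Polynomial.aeval x (Polynomial.derivative (minpoly k x)) ≠ 0 :=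
    (minpoly.irreducible hi).separable.aeval_derivative_ne_zero h1
  have h4 := h2.symm
  rw [smul_eq_mul, mul_eq_zero] at h4
  exact h4.resolve_left h3

/-- An element killed by all `k`-derivations is algebraic over `k`. -/
theorem isAlgebraic_of_forall {k K : Type*} [Field k] [CharZero k] [Field K] [Algebra k K] {x : K}
    (h : ∀ δ : Derivation k K K, δ x = 0) : IsAlgebraic k x := by
  by_contra hx
  obtain ⟨δ, hδ⟩ := exists_derivation (k := k) hx
  rw [h δ] at hδ
  exact zero_ne_one hδ

/-- For `x` transcendental over `ℚ(T)` there is a derivation which vanishes on the field of all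
elements algebraic over `ℚ(T)` and has the value `1` at `x`. -/
theorem exists_derivation_of_set {K : Type*} [Field K] [CharZero K] (T : Set K) {x : K}
    (hx : Transcendental (IntermediateField.adjoin ℚ T) x) :
    ∃ δ : Derivation ℚ K K, (∀ y, IsAlgebraic (IntermediateField.adjoin ℚ T) y → δ y = 0) ∧
      δ x = 1 := by
  obtain ⟨δ, hδ⟩ := exists_derivation hx
  refine ⟨δ.restrictScalars ℚ, fun y hy => ?_, hδ⟩
  exact eq_zero_of_isAlgebraic δ hy

/-- The same with the ring generated by `T`. -/
theorem exists_derivation_of_set' {K : Type*} [Field K] [CharZero K] (T : Set K) {x : K}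
    (hx : ¬ IsAlgebraic (Algebra.adjoin ℚ T) x) :
    ∃ δ : Derivation ℚ K K, (∀ y, IsAlgebraic (Algebra.adjoin ℚ T) y → δ y = 0) ∧
      δ x = 1 := by
  open IntermediateField.algebraAdjoinAdjoin in
  have key : ∀ y : K, IsAlgebraic (IntermediateField.adjoin ℚ T) y ↔
      IsAlgebraic (Algebra.adjoin ℚ T) y := fun y =>
    (IsFractionRing.isAlgebraic_iff (Algebra.adjoin ℚ T) (IntermediateField.adjoin ℚ T) K).symm
  have hx' : Transcendental (IntermediateField.adjoin ℚ T) x := by
    intro h
    exact hx ((key x).mp h)
  obtain ⟨δ, h1, h2⟩ := exists_derivation_of_set T hx'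
  exact ⟨δ, fun y hy => h1 y ((key y).mpr hy), h2⟩

end Pool.Agent.DRV
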